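import Pool.Agent.Helper50.KP.GoalsF

/-!
# Project KP (MP_5a63b6_lc), packet KP-GEN
-/

set_option autoImplicit false

namespace Pool.Agent.Helper30.KP

open Pool.Agent.Helper50.KP

section

variable {G : Type} [Group G]

theorem good_cup {w : Word} {k : ℕ} {ch L : List G} {L1 L2 : List G} (g : G) (hk : L1.length = k)
    (hL : L = L1 ++ L2) (h : Good w ch (L1 ++ g :: g⁻¹ :: L2)) :
    Good ((.cup, k) :: w) (g :: ch) L := by
  refine ⟨g, ch, rfl, ?_⟩
  subst hk
  subst hL
  rw [List.take_left, List.drop_left]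
  exact h

theorem good_cap {w : Word} {k : ℕ} {ch L : List G} {L1 L2 : List G} (g : G) (hk : L1.length = k)
    (hL : L = L1 ++ g :: g⁻¹ :: L2) (h : Good w ch (L1 ++ L2)) :
    Good ((.cap, k) :: w) ch L := by
  refine ⟨g, L2, ?_, ?_⟩
  · subst hk
    subst hL
    rw [List.drop_left]
  · subst hk
    subst hL
    rw [List.take_left]
    exact h

theorem flat_bnd (a : G) (c : ℕ → G) (n : ℕ) : ∃ X, flat (bnd a c n) = a⁻¹ :: X := by
  cases n with
  | zero => exact ⟨_, rfl⟩
  | succ n => exact ⟨_, rfl⟩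

theorem flat_bnd_succ (a : G) (c : ℕ → G) (n : ℕ) :
    flat (bnd a c (n + 1)) = a⁻¹ :: c n :: (c n)⁻¹ :: a :: flat (bnd a c n) := rfl

theorem good_rep (a : G) (c : ℕ → G) : ∀ (n : ℕ) (w : Word) (ch : List G),
    Good w ch (flat (bnd a c n)) →
    Good (List.replicate (2 * n) (.cup, 1) ++ w)
      (((List.range n).flatMap fun v => [a, c v]) ++ ch) [a⁻¹, a] := by
  intro n
  induction n with
  | zero => intro w ch h; exact h
  | succ n ih =>
    intro w ch h
    have e1 : List.replicate (2 * (n + 1)) ((.cup, 1) : Ev) ++ w =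
        List.replicate (2 * n) (.cup, 1) ++ ((.cup, 1) :: (.cup, 1) :: w) := by
      rw [show 2 * (n + 1) = 2 * n + 2 by ring, List.replicate_add, List.append_assoc]
      rfl
    have e2 : ((List.range (n + 1)).flatMap fun v => [a, c v]) ++ ch =
        ((List.range n).flatMap fun v => [a, c v]) ++ (a :: c n :: ch) := by
      rw [List.range_succ, List.flatMap_append, List.append_assoc]
      rfl
    rw [e1, e2]
    apply ih
    obtain ⟨X, hX⟩ := flat_bnd a c n
    rw [flat_bnd_succ, hX] at h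
    rw [hX]
    apply good_cup (L1 := [a⁻¹]) (L2 := X) a rfl rfl
    apply good_cup (L1 := [a⁻¹]) (L2 := a :: a⁻¹ :: X) (c n) rfl rfl
    exact h

theorem good_base (a : G) (c : ℕ → G) (n : ℕ) (w : Word) (ch : List G)
    (h : Good w ch (flat (bnd a c n))) :
    Good (base n ++ w) ((a⁻¹ :: ((List.range n).flatMap fun v => [a, c v])) ++ ch) [] := by
  have h1 := good_rep a c n w ch h
  have : base n ++ w = (.cup, 0) :: (List.replicate (2 * n) (.cup, 1) ++ w) := rfl
  rw [this]
  apply good_cup (L1 := []) (L2 := []) a⁻¹ rfl rfl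
  rw [inv_inv]
  exact h1

theorem good_cols (hZIP : ZIP) (hRIN : RIN) (a : G) (c : ℕ → G) (n : ℕ) (ps : ℕ → List (ℕ × ℕ))
    (hr : ∀ v < n, ∃ B', run (prog n (ps v)) [] a (bnd a c n) = some ([], c v, B')) :
    ∀ (j i : ℕ) (T : List G) (w : Word) (ch : List G), i + j ≤ n → T.length = 4 * i →
    Good w ch (T ++ ((List.range' i j).flatMap fun v => [a⁻¹, c v, (c v)⁻¹, a]) ++
      flat (bnd a c n)) →
    Good (cols i ((List.range' i j).map fun v => prog n (ps v)) ++ w)
      (((List.range' i j).flatMap fun v => [a⁻¹, (c v)⁻¹]) ++ ch) (T ++ flat (bnd a c n)) := by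
  intro j
  induction j with
  | zero =>
    intro i T w ch _ _ h
    simpa [cols] using h
  | succ j ih =>
    intro i T w ch hij hT h
    obtain ⟨B', hB⟩ := hr i (by omega)
    have hB2 := hRIN.2 G _ _ _ _ _ _ _ hB
    rw [List.range'_succ, List.map_cons, List.flatMap_cons]
    set E := prog n (ps i) with hE
    set Es := (List.range' (i + 1) j).map fun v => prog n (ps v) with hEs
    have e1 : cols i (E :: Es) ++ w = (.cup, 4 * i) :: (low (4 * i + 1) 0 E ++
        ((.cup, 4 * i + 2) :: (low (4 * i + 3) 0 (inv E) ++ (cols (i + 1) Es ++ w)))) := by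
      simp [cols, col]
    rw [e1]
    have e2 : [a⁻¹, (c i)⁻¹] ++ ((List.range' (i + 1) j).flatMap fun v => [a⁻¹, (c v)⁻¹]) ++ ch =
        a⁻¹ :: ((c i)⁻¹ :: (((List.range' (i + 1) j).flatMap fun v => [a⁻¹, (c v)⁻¹]) ++ ch)) := by
      simp
    rw [e2]
    apply good_cup (L1 := T) (L2 := flat (bnd a c n)) a⁻¹ hT rfl
    rw [inv_inv]
    -- first strand
    have z1 := hZIP G E [] (bnd a c n) [] B' a (c i) (4 * i + 1) (T ++ [a⁻¹]) []
      ((c i)⁻¹ :: (((List.range' (i + 1) j).flatMap fun v => [a⁻¹, (c v)⁻¹]) ++ ch))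
      ((.cup, 4 * i + 2) :: (low (4 * i + 3) 0 (inv E) ++ (cols (i + 1) Es ++ w)))
      (by simp [hT]) hB
    have z2 := hZIP G (inv E) [] B' [] (bnd a c n) (c i) a (4 * i + 3)
      (T ++ [a⁻¹, c i, (c i)⁻¹]) []
      (((List.range' (i + 1) j).flatMap fun v => [a⁻¹, (c v)⁻¹]) ++ ch)
      (cols (i + 1) Es ++ w) (by simp [hT]) hB2
    have f0 : flat ([] : List (G × G)).reverse = [] := rfl
    rw [f0] at z1 z2
    simp only [List.append_nil, List.length_nil, List.append_assoc, List.cons_append,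
      List.nil_append] at z1 z2
    apply z1
    apply good_cup (L1 := T ++ [a⁻¹, c i]) (L2 := flat B') (c i)⁻¹ (by simp [hT]) (by simp)
    rw [inv_inv]
    have e3 : T ++ [a⁻¹, c i] ++ (c i)⁻¹ :: c i :: flat B' =
        T ++ a⁻¹ :: c i :: (c i)⁻¹ :: c i :: flat B' := by simp
    rw [e3]
    apply z2
    have e4 : T ++ a⁻¹ :: c i :: (c i)⁻¹ :: a :: flat (bnd a c n) =
        (T ++ [a⁻¹, c i, (c i)⁻¹, a]) ++ flat (bnd a c n) := by simp
    rw [e4]
    apply ih (i + 1) (T ++ [a⁻¹, c i, (c i)⁻¹, a]) w ch (by omega) (by simp [hT]; ring)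
    have e5 : T ++ ((List.range' i (j + 1)).flatMap fun v => [a⁻¹, c v, (c v)⁻¹, a]) ++
        flat (bnd a c n) = (T ++ [a⁻¹, c i, (c i)⁻¹, a]) ++
        ((List.range' (i + 1) j).flatMap fun v => [a⁻¹, c v, (c v)⁻¹, a]) ++
          flat (bnd a c n) := by
      rw [List.range'_succ, List.flatMap_cons]
      simp
    rw [← e5]
    exact h

theorem good_nest : ∀ (k : ℕ) (T : List G) (w : Word) (ch L : List G), T.length = k →
    Good w ch L → Good (nest k ++ w) ch (T ++ (T.map (·⁻¹)).reverse ++ L) := by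
  intro k
  induction k with
  | zero =>
    intro T w ch L hT h
    have : T = [] := List.length_eq_zero_iff.1 hT
    subst this
    exact h
  | succ k ih =>
    intro T w ch L hT h
    obtain ⟨T0, x, rfl⟩ : ∃ T0 x, T = T0 ++ [x] := by
      have hne : T ≠ [] := by intro h0; rw [h0] at hT; simp at hT
      exact ⟨T.dropLast, T.getLast hne, (List.dropLast_append_getLast hne).symm⟩
    have hT0 : T0.length = k := by simpa using hT
    have e1 : nest (k + 1) ++ w = (.cap, k) :: (nest k ++ w) := rfl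
    rw [e1]
    apply good_cap (L1 := T0) (L2 := (T0.map (·⁻¹)).reverse ++ L) x hT0
    · simp
    · rw [← List.append_assoc]
      exact ih T0 w ch L hT0 h

theorem rev_flat (a : G) (c : ℕ → G) (n : ℕ) :
    ((((List.range n).flatMap fun v => [a⁻¹, c v, (c v)⁻¹, a]).map (·⁻¹)).reverse) ++ [a⁻¹, a] =
      flat (bnd a c n) := by
  induction n with
  | zero => rfl
  | succ n ih =>
    rw [flat_bnd_succ, ← ih, List.range_succ, List.flatMap_append, List.map_append,
      List.reverse_append]
    simp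

theorem len_T (a : G) (c : ℕ → G) (n : ℕ) :
    ((List.range n).flatMap fun v => [a⁻¹, c v, (c v)⁻¹, a]).length = 4 * n := by
  induction n with
  | zero => rfl
  | succ n ih =>
    rw [List.range_succ, List.flatMap_append, List.length_append, ih]
    simp
    ring

end

theorem gGEN (hZIP : Pool.Agent.Helper50.KP.ZIP) (hRIN : Pool.Agent.Helper50.KP.RIN) :
    Pool.Agent.Helper50.KP.GEN := by
  intro G _ n ps a c hr
  have h1 : Good [((.cap, 0) : Ev)] [] [a⁻¹, a] := by
    apply good_cap (L1 := []) (L2 := []) a⁻¹ rfl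
    · simp
    · exact ⟨rfl, rfl⟩
  have h2 := good_nest (4 * n) ((List.range n).flatMap fun v => [a⁻¹, c v, (c v)⁻¹, a]) _ _ _
    (len_T a c n) h1
  rw [List.append_assoc, rev_flat] at h2
  have h3 := good_cols hZIP hRIN a c n ps hr n 0 [] (nest (4 * n) ++ [(.cap, 0)]) [] (by omega) rfl
    (by rw [← List.range_eq_range']; exact h2)
  rw [← List.range_eq_range', List.append_nil] at h3
  have h4 := good_base a c n _ _ h3
  have e : sys n ps = base n ++ (cols 0 ((List.range n).map fun v => prog n (ps v)) ++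
      (nest (4 * n) ++ [(.cap, 0)])) := by
    simp [sys, dia]
  rw [e]
  exact h4

end Pool.Agent.Helper30.KP
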